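import Pool.Agent.H370R2.DirGood

set_option autoImplicit false

namespace Pool.Agent.T9h73.LZ

open Finset MeasureTheory Complex

section
variable {q : ℕ} [NeZero q]

/-- partial sums of the Dirichlet series at a zero of the L-function -/
theorem psum_bound (χ : DirichletCharacter ℂ q) (hχ : χ ≠ 1) {ρ : ℂ} (h0 : 0 < ρ.re)
    (hL : DirichletCharacter.LFunction χ ρ = 0) {V : ℝ}
    (hV : ∀ n : ℕ, ‖∑ k ∈ Icc 1 n, χ (k : ZMod q)‖ ≤ V) (N : ℕ) (hN : 1 ≤ N) :
    ‖∑ k ∈ Icc 1 N, χ (k : ZMod q) * (k : ℂ) ^ (-ρ)‖ ≤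
      V * (1 + ‖ρ‖ / ρ.re) * (N : ℝ) ^ (-ρ.re) := by
  have hN0 : (0 : ℝ) < N := by exact_mod_cast hN
  have hρ0 : ρ ≠ 0 := by
    rintro rfl
    simp at h0
  have hV0 : 0 ≤ V := (norm_nonneg _).trans (hV 0)
  set A : ℝ → ℂ := fun u => ∑ k ∈ Icc 1 ⌊u⌋₊, χ (k : ZMod q) with hA
  set c : ℕ → ℂ := fun n => if n = 0 then 0 else χ (n : ZMod q) with hc
  have hcA : ∀ n : ℕ, ∑ k ∈ Icc 0 n, c k = ∑ k ∈ Icc 1 n, χ (k : ZMod q) := by
    intro n
    rw [← Finset.sum_subset (s₁ := Icc 1 n) (s₂ := Icc 0 n)]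
    · refine sum_congr rfl fun k hk => ?_
      rw [hc]
      simp only
      rw [if_neg (by have := (mem_Icc.1 hk).1; omega)]
    · intro k hk
      rw [mem_Icc] at hk ⊢
      omega
    · intro k hk hk2
      have : k = 0 := by
        by_contra hne
        exact hk2 (mem_Icc.2 ⟨Nat.one_le_iff_ne_zero.2 hne, (mem_Icc.1 hk).2⟩)
      rw [hc]
      simp [this]
  have hder : ∀ t : ℝ, 0 < t → HasDerivAt (fun t : ℝ => (t : ℂ) ^ (-ρ)) (-ρ * (t : ℂ) ^ (-ρ - 1)) t := by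
    intro t ht
    exact hasDerivAt_ofReal_cpow_const ht.ne' (neg_ne_zero.2 hρ0)
  have hint1 : IntegrableOn (fun u : ℝ => A u * (u : ℂ) ^ (-ρ - 1)) (Set.Ioi 1) := by
    have h1 : IntegrableOn (fun u : ℝ => V * u ^ (-ρ.re - 1)) (Set.Ioi 1) :=
      (integrableOn_Ioi_rpow_of_lt (by linarith) one_pos).const_mul V
    refine Integrable.mono' h1 ?_ ?_
    · refine AEStronglyMeasurable.mul ?_ ?_
      · exact ((measurable_from_nat (f := fun n : ℕ => ∑ k ∈ Icc 1 n, χ (k : ZMod q))).comp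
          Nat.measurable_floor).aestronglyMeasurable
      · exact (measurable_ofReal.pow_const _).aestronglyMeasurable
    · filter_upwards [ae_restrict_mem measurableSet_Ioi] with u hu
      have hu0 : 0 < u := lt_trans one_pos hu
      rw [norm_mul, norm_cpow_eq_rpow_re_of_pos hu0]
      have : (-ρ - 1).re = -ρ.re - 1 := by simp
      rw [this]
      exact mul_le_mul_of_nonneg_right (hV _) (by positivity)
  have hAbel : ∑ k ∈ Icc 1 N, χ (k : ZMod q) * (k : ℂ) ^ (-ρ) =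
      (N : ℂ) ^ (-ρ) * A N + ρ * ∫ u in Set.Ioc (1 : ℝ) N, A u * (u : ℂ) ^ (-ρ - 1) := by
    have h1 := sum_mul_eq_sub_integral_mul₀' (f := fun t : ℝ => (t : ℂ) ^ (-ρ)) c (by simp [hc]) N
      (fun t ht => (hder t (lt_of_lt_of_le one_pos ht.1)).differentiableAt) (by
        have h2 : IntegrableOn (fun t : ℝ => -ρ * (t : ℂ) ^ (-ρ - 1)) (Set.Icc (1 : ℝ) N) := by
          refine ContinuousOn.integrableOn_Icc ?_
          refine continuousOn_const.mul ?_
          intro t ht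
          have ht0 : 0 < t := lt_of_lt_of_le one_pos ht.1
          refine ContinuousAt.continuousWithinAt ?_
          exact (continuousAt_ofReal_cpow_const t _ (Or.inr ht0.ne'))
        refine h2.congr_fun ?_ measurableSet_Icc
        intro t ht
        exact (hder t (lt_of_lt_of_le one_pos ht.1)).deriv.symm)
    have e1 : ∑ k ∈ Icc 0 N, (fun t : ℝ => (t : ℂ) ^ (-ρ)) (k : ℝ) * c k =
        ∑ k ∈ Icc 1 N, χ (k : ZMod q) * (k : ℂ) ^ (-ρ) := by
      rw [← Finset.sum_subset (s₁ := Icc 1 N) (s₂ := Icc 0 N)]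
      · refine sum_congr rfl fun k hk => ?_
        rw [hc]
        simp only
        rw [if_neg (by have := (mem_Icc.1 hk).1; omega), mul_comm]
        norm_cast
      · intro k hk
        rw [mem_Icc] at hk ⊢
        omega
      · intro k hk hk2
        have : k = 0 := by
          by_contra hne
          exact hk2 (mem_Icc.2 ⟨Nat.one_le_iff_ne_zero.2 hne, (mem_Icc.1 hk).2⟩)
        rw [hc]
        simp [this]
    rw [e1, hcA] at h1
    rw [h1]
    have e2 : ∫ t in Set.Ioc (1 : ℝ) N, deriv (fun t : ℝ => (t : ℂ) ^ (-ρ)) t *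
        ∑ k ∈ Icc 0 ⌊t⌋₊, c k = -ρ * ∫ u in Set.Ioc (1 : ℝ) N, A u * (u : ℂ) ^ (-ρ - 1) := by
      rw [← integral_const_mul]
      refine setIntegral_congr_fun measurableSet_Ioc fun t ht => ?_
      have ht0 : 0 < t := lt_trans one_pos ht.1
      rw [(hder t ht0).deriv, hcA]
      ring
    rw [e2, hA]
    simp only [Nat.floor_natCast]
    push_cast
    ring
  have hsplit : ∫ u in Set.Ioc (1 : ℝ) N, A u * (u : ℂ) ^ (-ρ - 1) =
      -∫ u in Set.Ioi (N : ℝ), A u * (u : ℂ) ^ (-ρ - 1) := by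
    have h1 := H370.DL.L_integral hχ h0
    rw [hL] at h1
    have h2 : ∫ u in Set.Ioi (1 : ℝ), A u * (u : ℂ) ^ (-ρ - 1) = 0 := by
      rcases mul_eq_zero.1 h1.symm with h | h
      · exact absurd h hρ0
      · exact h
    have h3 : Set.Ioc (1 : ℝ) N ∪ Set.Ioi (N : ℝ) = Set.Ioi 1 :=
      Set.Ioc_union_Ioi_eq_Ioi (by exact_mod_cast hN)
    rw [← h3, setIntegral_union (Set.Ioc_disjoint_Ioi le_rfl) measurableSet_Ioi
      (hint1.mono_set (fun u hu => hu.1))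
      (hint1.mono_set (fun u hu => lt_of_le_of_lt (show (1 : ℝ) ≤ N by exact_mod_cast hN) hu))] at h2
    linear_combination h2
  have htail : ‖∫ u in Set.Ioi (N : ℝ), A u * (u : ℂ) ^ (-ρ - 1)‖ ≤ V * ((N : ℝ) ^ (-ρ.re) / ρ.re) := by
    have h1 : ‖∫ u in Set.Ioi (N : ℝ), A u * (u : ℂ) ^ (-ρ - 1)‖ ≤
        ∫ u in Set.Ioi (N : ℝ), V * u ^ (-ρ.re - 1) := by
      refine norm_integral_le_of_norm_le
        ((integrableOn_Ioi_rpow_of_lt (by linarith) hN0).const_mul V) ?_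
      filter_upwards [ae_restrict_mem measurableSet_Ioi] with u hu
      have hu0 : 0 < u := lt_trans hN0 hu
      rw [norm_mul, norm_cpow_eq_rpow_re_of_pos hu0]
      have : (-ρ - 1).re = -ρ.re - 1 := by simp
      rw [this]
      exact mul_le_mul_of_nonneg_right (hV _) (by positivity)
    refine h1.trans (le_of_eq ?_)
    rw [integral_const_mul, integral_Ioi_rpow_of_lt (by linarith) hN0]
    congr 1
    rw [sub_add_cancel, neg_div_neg_eq]
  rw [hAbel, hsplit]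
  have h5 : ‖(N : ℂ) ^ (-ρ)‖ = (N : ℝ) ^ (-ρ.re) := by
    have := norm_cpow_eq_rpow_re_of_pos hN0 (-ρ)
    simpa using this
  have h6 : ‖A N‖ ≤ V := by
    rw [hA]
    exact hV _
  calc ‖(N : ℂ) ^ (-ρ) * A N + ρ * -∫ u in Set.Ioi (N : ℝ), A u * (u : ℂ) ^ (-ρ - 1)‖
      ≤ ‖(N : ℂ) ^ (-ρ) * A N‖ + ‖ρ * -∫ u in Set.Ioi (N : ℝ), A u * (u : ℂ) ^ (-ρ - 1)‖ :=
        norm_add_le _ _
    _ ≤ (N : ℝ) ^ (-ρ.re) * V + ‖ρ‖ * (V * ((N : ℝ) ^ (-ρ.re) / ρ.re)) := by
        rw [norm_mul, norm_mul, norm_neg, h5]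
        gcongr
    _ = V * (1 + ‖ρ‖ / ρ.re) * (N : ℝ) ^ (-ρ.re) := by ring

end

end Pool.Agent.T9h73.LZ
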