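import Mathlib

set_option autoImplicit false

namespace Pool.Agent.T9h73.LZ

open Finset

/-- the coefficients of the product of the truncated series for `1/L` and `L` -/
noncomputable def coef (N m : ℕ) : ℂ :=
  ∑ p ∈ ((Icc 1 N) ×ˢ (Icc 1 N)).filter (fun p => p.1 * p.2 = m),
    ((ArithmeticFunction.moebius p.1 : ℤ) : ℂ)

theorem coef_low {N m : ℕ} (hm1 : 1 ≤ m) (hm : m ≤ N) : coef N m = if m = 1 then 1 else 0 := by
  have h1 : ((Icc 1 N) ×ˢ (Icc 1 N)).filter (fun p => p.1 * p.2 = m) = m.divisorsAntidiagonal := by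
    ext ⟨a, b⟩
    simp only [mem_filter, mem_product, mem_Icc, Nat.mem_divisorsAntidiagonal]
    constructor
    · rintro ⟨-, h⟩
      exact ⟨h, by omega⟩
    · rintro ⟨h, h2⟩
      have ha : 1 ≤ a := by
        rcases Nat.eq_zero_or_pos a with h3 | h3
        · rw [h3, zero_mul] at h; omega
        · exact h3
      have hb : 1 ≤ b := by
        rcases Nat.eq_zero_or_pos b with h3 | h3
        · rw [h3, mul_zero] at h; omega
        · exact h3
      refine ⟨⟨⟨ha, ?_⟩, ⟨hb, ?_⟩⟩, h⟩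
      · nlinarith
      · nlinarith
  unfold coef
  rw [h1]
  have h2 := congrArg (fun f : ArithmeticFunction ℤ => f m) ArithmeticFunction.moebius_mul_coe_zeta
  simp only [ArithmeticFunction.mul_apply, ArithmeticFunction.one_apply] at h2
  have h3 : ∑ x ∈ m.divisorsAntidiagonal, ArithmeticFunction.moebius x.1 = if m = 1 then 1 else 0 := by
    rw [← h2]
    refine sum_congr rfl fun x hx => ?_
    rw [Nat.mem_divisorsAntidiagonal] at hx
    have : x.2 ≠ 0 := by
      intro h4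
      rw [h4, mul_zero] at hx
      exact hx.2 hx.1.symm
    rw [ArithmeticFunction.natCoe_apply, ArithmeticFunction.zeta_apply_ne this]
    simp
  rw [← Int.cast_sum, h3]
  split_ifs <;> simp

theorem coef_high {N m : ℕ} (hm : N * N < m) : coef N m = 0 := by
  unfold coef
  have : ((Icc 1 N) ×ˢ (Icc 1 N)).filter (fun p => p.1 * p.2 = m) = ∅ := by
    rw [filter_eq_empty_iff]
    rintro ⟨a, b⟩ hp h
    simp only [mem_product, mem_Icc] at hp
    have := Nat.mul_le_mul hp.1.2 hp.2.2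
    simp only at h
    omega
  rw [this, sum_empty]

theorem coef_bound {N m : ℕ} (hm1 : 1 ≤ m) : ‖coef N m‖ ≤ (m.divisors.card : ℝ) := by
  unfold coef
  refine (norm_sum_le _ _).trans ?_
  have h1 : ∀ p ∈ ((Icc 1 N) ×ˢ (Icc 1 N)).filter (fun p => p.1 * p.2 = m),
      ‖((ArithmeticFunction.moebius p.1 : ℤ) : ℂ)‖ ≤ 1 := by
    intro p _
    rw [Complex.norm_intCast]
    have := ArithmeticFunction.abs_moebius_le_one (n := p.1)
    exact_mod_cast this
  refine (sum_le_sum h1).trans ?_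
  rw [sum_const, nsmul_eq_mul, mul_one]
  have h2 : (((Icc 1 N) ×ˢ (Icc 1 N)).filter (fun p => p.1 * p.2 = m)).card ≤ m.divisors.card := by
    refine card_le_card_of_injOn (fun p => p.1) ?_ ?_
    · rintro ⟨a, b⟩ hp
      simp only [coe_filter, mem_product, mem_Icc, Set.mem_setOf_eq] at hp
      simp only [Finset.mem_coe, Nat.mem_divisors]
      exact ⟨⟨b, hp.2.symm⟩, by omega⟩
    · rintro ⟨a, b⟩ hp ⟨a', b'⟩ hp' h
      simp only [coe_filter, mem_product, mem_Icc, Set.mem_setOf_eq] at hp hp'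
      simp only at h
      subst h
      have : b = b' := by
        have h3 : a * b = a * b' := by rw [hp.2, hp'.2]
        exact Nat.eq_of_mul_eq_mul_left (by omega) h3
      rw [this]
  exact_mod_cast h2

theorem prod_expand {q : ℕ} (χ : DirichletCharacter ℂ q) (ρ : ℂ) (N : ℕ) :
    (∑ d ∈ Icc 1 N, ((ArithmeticFunction.moebius d : ℤ) : ℂ) * (χ (d : ZMod q) * (d : ℂ) ^ (-ρ))) *
      (∑ n ∈ Icc 1 N, χ (n : ZMod q) * (n : ℂ) ^ (-ρ)) =
    ∑ m ∈ Icc 1 (N * N), coef N m * (m : ℂ) ^ (-ρ) * χ (m : ZMod q) := by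
  rw [sum_mul_sum, ← sum_product']
  rw [← sum_fiberwise_of_maps_to (g := fun p : ℕ × ℕ => p.1 * p.2) (t := Icc 1 (N * N))]
  · refine sum_congr rfl fun m hm => ?_
    unfold coef
    rw [sum_mul, sum_mul]
    refine sum_congr rfl fun p hp => ?_
    rw [mem_filter] at hp
    have h1 : (m : ℂ) ^ (-ρ) = (p.1 : ℂ) ^ (-ρ) * (p.2 : ℂ) ^ (-ρ) := by
      rw [← hp.2, Nat.cast_mul, Complex.natCast_mul_natCast_cpow]
    have h2 : χ (m : ZMod q) = χ (p.1 : ZMod q) * χ (p.2 : ZMod q) := by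
      rw [← hp.2, Nat.cast_mul, map_mul]
    rw [h1, h2]
    ring
  · rintro ⟨a, b⟩ hp
    simp only [mem_product, mem_Icc] at hp ⊢
    exact ⟨Nat.mul_pos hp.1.1 hp.2.1, Nat.mul_le_mul hp.1.2 hp.2.2⟩

/-- dyadic decomposition -/
theorem dyadic (f : ℕ → ℂ) (N : ℕ) (J : ℕ) :
    ∑ m ∈ Ioc N (2 ^ J * N), f m = ∑ j ∈ range J, ∑ m ∈ Ioc (2 ^ j * N) (2 ^ (j + 1) * N), f m := by
  induction J with
  | zero => simp
  | succ J ih =>
    rw [sum_range_succ, ← ih]
    rw [Finset.sum_Ioc_consecutive]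
    · exact Nat.le_mul_of_pos_left N (by positivity)
    · exact Nat.mul_le_mul_right N (Nat.pow_le_pow_right (by norm_num) (by omega))

/-- the truncated product without its first coefficient -/
theorem tail_eq {q : ℕ} (χ : DirichletCharacter ℂ q) (ρ : ℂ) {N J : ℕ} (hN : 1 ≤ N)
    (hJ : N ≤ 2 ^ J) :
    ∑ m ∈ Icc 1 (N * N), coef N m * (m : ℂ) ^ (-ρ) * χ (m : ZMod q) =
      1 + ∑ j ∈ range J, ∑ m ∈ Ioc (2 ^ j * N) (2 ^ (j + 1) * N),
        coef N m * (m : ℂ) ^ (-ρ) * χ (m : ZMod q) := by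
  rw [← dyadic (fun m => coef N m * (m : ℂ) ^ (-ρ) * χ (m : ZMod q))]
  have hsub : Icc 1 (N * N) ⊆ Icc 1 (2 ^ J * N) :=
    Icc_subset_Icc le_rfl (Nat.mul_le_mul_right N hJ)
  rw [sum_subset hsub (fun m hm hm2 => by
    have : N * N < m := by
      by_contra h
      exact hm2 (mem_Icc.2 ⟨(mem_Icc.1 hm).1, not_lt.1 h⟩)
    rw [coef_high this, zero_mul, zero_mul])]
  have h1 : Icc 1 (2 ^ J * N) = insert 1 (Ioc 1 (2 ^ J * N)) := by
    ext m
    simp only [mem_Icc, mem_insert, mem_Ioc]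
    have : 1 ≤ 2 ^ J * N := Nat.mul_pos (by positivity) hN
    omega
  rw [h1, sum_insert (by simp)]
  congr 1
  · rw [coef_low le_rfl hN]
    simp
  · have h2 : Ioc N (2 ^ J * N) ⊆ Ioc 1 (2 ^ J * N) := Ioc_subset_Ioc hN le_rfl
    rw [← sum_subset h2 (fun m hm hm2 => by
      have h3 : m ≤ N := by
        by_contra h
        exact hm2 (mem_Ioc.2 ⟨not_le.1 h, (mem_Ioc.1 hm).2⟩)
      have h4 : 1 < m := (mem_Ioc.1 hm).1
      rw [coef_low h4.le h3, if_neg (by omega), zero_mul, zero_mul])]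

end Pool.Agent.T9h73.LZ
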