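import Pool.Agent.T9h73.LZ.B
import Pool.Agent.Helper112.MultLS

set_option autoImplicit false

namespace Pool.Agent.T9h73.LZ

open Finset Pool.Agent.Helper112

open Classical in
theorem ls_block (R a b : ℕ) (hab : a ≤ b) (α : ℕ → ℂ) :
    ∑ f ∈ Icc 1 R, ∑ χ ∈ (univ : Finset (DirichletCharacter ℂ f)).filter (fun χ => χ.IsPrimitive),
        ‖∑ n ∈ Ioc a b, α n * χ (n : ZMod f)‖ ^ 2 ≤
      6 * (b + (R : ℝ) ^ 2) * ∑ n ∈ Ioc a b, ‖α n‖ ^ 2 := by
  have h := mult_large_sieve b R (fun n => if a < n then α n else 0)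
  have e1 : ∀ (g : ℕ → ℂ), ∑ n ∈ Icc 1 b, (if a < n then α n else 0) * g n =
      ∑ n ∈ Ioc a b, α n * g n := by
    intro g
    have hs : Ioc a b ⊆ Icc 1 b := by
      intro n hn
      rw [mem_Ioc] at hn
      rw [mem_Icc]
      omega
    rw [← sum_subset hs]
    · refine sum_congr rfl fun n hn => ?_
      rw [if_pos (mem_Ioc.1 hn).1]
    · intro n hn hn2
      have : ¬ a < n := fun h3 => hn2 (mem_Ioc.2 ⟨h3, (mem_Icc.1 hn).2⟩)
      rw [if_neg this, zero_mul]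
  have e2 : ∑ n ∈ Icc 1 b, ‖(fun n => if a < n then α n else 0 : ℕ → ℂ) n‖ ^ 2 =
      ∑ n ∈ Ioc a b, ‖α n‖ ^ 2 := by
    have hs : Ioc a b ⊆ Icc 1 b := by
      intro n hn
      rw [mem_Ioc] at hn
      rw [mem_Icc]
      omega
    rw [← sum_subset hs]
    · refine sum_congr rfl fun n hn => ?_
      simp only
      rw [if_pos (mem_Ioc.1 hn).1]
    · intro n hn hn2
      have : ¬ a < n := fun h3 => hn2 (mem_Ioc.2 ⟨h3, (mem_Icc.1 hn).2⟩)
      simp only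
      rw [if_neg this]
      simp
  rw [e2] at h
  refine le_trans (sum_le_sum fun f hf => ?_) h
  have hf1 : 1 ≤ f := (mem_Icc.1 hf).1
  have h2 : (1 : ℝ) ≤ (f : ℝ) / (Nat.totient f : ℝ) := by
    have h3 : 0 < Nat.totient f := Nat.totient_pos.2 hf1
    rw [le_div_iff₀ (by exact_mod_cast h3), one_mul]
    exact_mod_cast Nat.totient_le f
  have h4 : ∑ χ ∈ (univ : Finset (DirichletCharacter ℂ f)).filter (fun χ => χ.IsPrimitive),
      ‖∑ n ∈ Ioc a b, α n * χ (n : ZMod f)‖ ^ 2 =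
      ∑ χ ∈ (univ : Finset (DirichletCharacter ℂ f)).filter (fun χ => χ.IsPrimitive),
        ‖∑ n ∈ Icc 1 b, (fun n => if a < n then α n else 0 : ℕ → ℂ) n * χ (n : ZMod f)‖ ^ 2 := by
    refine sum_congr rfl fun χ _ => ?_
    rw [← e1 (fun n => χ (n : ZMod f))]
  rw [h4]
  exact le_mul_of_one_le_left (sum_nonneg fun _ _ => by positivity) h2

theorem ls_count (R N J : ℕ) (hN : 1 ≤ N) (hJ : N ≤ 2 ^ J) (ρ : ℂ)
    (Z : ∀ f : ℕ, DirichletCharacter ℂ f → Prop)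
    (hZ : ∀ f ∈ Icc 2 R, ∀ χ : DirichletCharacter ℂ f, χ.IsPrimitive → Z f χ →
      ‖(∑ d ∈ Icc 1 N, ((ArithmeticFunction.moebius d : ℤ) : ℂ) *
          (χ (d : ZMod f) * (d : ℂ) ^ (-ρ))) *
        (∑ n ∈ Icc 1 N, χ (n : ZMod f) * (n : ℂ) ^ (-ρ))‖ ≤ 1 / 2) :
    ∑ f ∈ Icc 2 R, (Set.ncard {χ : DirichletCharacter ℂ f | χ.IsPrimitive ∧ Z f χ} : ℝ) ≤
      24 * J * ∑ j ∈ range J, ((2 ^ (j + 1) * N : ℕ) + (R : ℝ) ^ 2) *
        ∑ m ∈ Ioc (2 ^ j * N) (2 ^ (j + 1) * N), ‖coef N m * (m : ℂ) ^ (-ρ)‖ ^ 2 := by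
  classical
  set α : ℕ → ℂ := fun m => coef N m * (m : ℂ) ^ (-ρ) with hα
  set S : ∀ f : ℕ, DirichletCharacter ℂ f → ℕ → ℂ := fun f χ j =>
    ∑ m ∈ Ioc (2 ^ j * N) (2 ^ (j + 1) * N), α m * χ (m : ZMod f) with hS
  have h1 : ∀ f ∈ Icc 2 R, (Set.ncard {χ : DirichletCharacter ℂ f | χ.IsPrimitive ∧ Z f χ} : ℝ) ≤
      ∑ χ ∈ (univ : Finset (DirichletCharacter ℂ f)).filter (fun χ => χ.IsPrimitive),
        4 * (J * ∑ j ∈ range J, ‖S f χ j‖ ^ 2) := by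
    intro f hf
    have e1 : {χ : DirichletCharacter ℂ f | χ.IsPrimitive ∧ Z f χ} =
        (((univ : Finset (DirichletCharacter ℂ f)).filter (fun χ => χ.IsPrimitive ∧ Z f χ) :
          Finset (DirichletCharacter ℂ f)) : Set (DirichletCharacter ℂ f)) := by
      ext χ
      simp
    rw [e1, Set.ncard_coe_finset]
    have h2 : ((((univ : Finset (DirichletCharacter ℂ f)).filter
        (fun χ => χ.IsPrimitive ∧ Z f χ)).card : ℕ) : ℝ) =
        ∑ χ ∈ (univ : Finset (DirichletCharacter ℂ f)).filter (fun χ => χ.IsPrimitive ∧ Z f χ),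
          (1 : ℝ) := by simp
    rw [h2]
    refine (sum_le_sum (f := fun _ => (1 : ℝ))
      (g := fun χ => 4 * (J * ∑ j ∈ range J, ‖S f χ j‖ ^ 2)) ?_).trans ?_
    · intro χ hχ
      rw [mem_filter] at hχ
      have h3 := hZ f hf χ hχ.2.1 hχ.2.2
      rw [prod_expand, tail_eq χ ρ hN hJ] at h3
      have h4 : 1 / 2 ≤ ‖∑ j ∈ range J, S f χ j‖ := by
        have h5 : (1 : ℂ) = (1 + ∑ j ∈ range J, S f χ j) - ∑ j ∈ range J, S f χ j := by ring
        have h6 : ‖(1 : ℂ)‖ ≤ ‖1 + ∑ j ∈ range J, S f χ j‖ + ‖∑ j ∈ range J, S f χ j‖ := by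
          conv_lhs => rw [h5]
          exact norm_sub_le _ _
        rw [norm_one] at h6
        have h7 : ‖1 + ∑ j ∈ range J, S f χ j‖ ≤ 1 / 2 := h3
        linarith
      have h5 : ‖∑ j ∈ range J, S f χ j‖ ^ 2 ≤ J * ∑ j ∈ range J, ‖S f χ j‖ ^ 2 := by
        calc ‖∑ j ∈ range J, S f χ j‖ ^ 2 ≤ (∑ j ∈ range J, ‖S f χ j‖) ^ 2 := by
              gcongr
              exact norm_sum_le _ _
          _ ≤ (range J).card * ∑ j ∈ range J, ‖S f χ j‖ ^ 2 := sq_sum_le_card_mul_sum_sq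
          _ = _ := by rw [card_range]
      nlinarith
    · refine sum_le_sum_of_subset_of_nonneg ?_ fun _ _ _ => by positivity
      intro χ hχ
      rw [mem_filter] at hχ ⊢
      exact ⟨hχ.1, hχ.2.1⟩
  calc ∑ f ∈ Icc 2 R, (Set.ncard {χ : DirichletCharacter ℂ f | χ.IsPrimitive ∧ Z f χ} : ℝ)
      ≤ ∑ f ∈ Icc 2 R, ∑ χ ∈ (univ : Finset (DirichletCharacter ℂ f)).filter
          (fun χ => χ.IsPrimitive), 4 * (J * ∑ j ∈ range J, ‖S f χ j‖ ^ 2) := sum_le_sum h1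
    _ ≤ ∑ f ∈ Icc 1 R, ∑ χ ∈ (univ : Finset (DirichletCharacter ℂ f)).filter
          (fun χ => χ.IsPrimitive), 4 * (J * ∑ j ∈ range J, ‖S f χ j‖ ^ 2) := by
        refine sum_le_sum_of_subset_of_nonneg (Icc_subset_Icc (by norm_num) le_rfl) ?_
        intro _ _ _
        exact sum_nonneg fun _ _ => by positivity
    _ = 4 * J * ∑ j ∈ range J, ∑ f ∈ Icc 1 R,
          ∑ χ ∈ (univ : Finset (DirichletCharacter ℂ f)).filter (fun χ => χ.IsPrimitive),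
            ‖S f χ j‖ ^ 2 := by
        rw [sum_comm (s := range J) (t := Icc 1 R), mul_sum]
        refine sum_congr rfl fun f _ => ?_
        rw [sum_comm (s := range J), mul_sum]
        refine sum_congr rfl fun χ _ => ?_
        ring
    _ ≤ 4 * J * ∑ j ∈ range J, 6 * ((2 ^ (j + 1) * N : ℕ) + (R : ℝ) ^ 2) *
          ∑ m ∈ Ioc (2 ^ j * N) (2 ^ (j + 1) * N), ‖α m‖ ^ 2 := by
        gcongr with j hj
        exact ls_block R _ _ (Nat.mul_le_mul_right N (Nat.pow_le_pow_right (by norm_num) (by omega))) α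
    _ = _ := by
        rw [mul_sum, mul_sum]
        refine sum_congr rfl fun j _ => ?_
        ring

end Pool.Agent.T9h73.LZ
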